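import Mathlib

/-!
# The length of `(A, C)`-commutative `n`-ary algebras

The length of a `k`-dimensional `(A, C)`-commutative `n`-ary algebra is at most the generalised
Fibonacci number `F(k)`, where `F(m) = 1` for `m ≤ a` and
`F(m) = (n - a + 1) F(m - 1) + F(m - 2) + ⋯ + F(m - a)` for `m > a`; here `a = max(|A|, 1)`.
-/

set_option autoImplicit false

namespace Pool.Agent.Results.MP_dca5dd_al.LengthBound

universe u v

/-! ## Definitions -/

/-- The generalised Fibonacci numbers `F_N(m)` for `N = 2 ^ (n - a + 1) * 3 * 5 * ⋯ * p_a`: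
`F(m) = 1` for `m ≤ a` and `F(m) = (n - a + 1) F(m - 1) + F(m - 2) + ⋯ + F(m - a)` for `m > a`. -/
def genFib (n a : ℕ) (m : ℕ) : ℕ :=
  if h : m ≤ a then 1 else
    (n - a + 1) * genFib n a (m - 1) + ∑ i ∈ Finset.range (a - 1), genFib n a (m - 2 - i)
termination_by m
decreasing_by all_goals omega

section Defs

variable {K : Type u} [Field K] {V : Type v} [AddCommGroup V] [Module K V] {n : ℕ}

/-- The `n`-ary algebra with the product `μ` is `(A, C)`-commutative. -/
def IsACCommutative (μ : MultilinearMap K (fun _ : Fin n => V) V) (A C : Finset (Fin n)) : Prop :=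
  (∀ i ∈ A, ∀ j ∈ A, i ≠ j → ∀ x : Fin n → V, μ (fun l => x (Equiv.swap i j l)) = -μ x) ∧
  (∀ i ∈ C, ∀ j ∈ C, i ≠ j → ∀ x : Fin n → V, μ (fun l => x (Equiv.swap i j l)) = μ x)

/-- `IsWord μ S l w`: the element `w` is a word of length `l` in the elements of `S`. -/
inductive IsWord (μ : MultilinearMap K (fun _ : Fin n => V) V) (S : Set V) : ℕ → V → Prop
  | base (s : V) (hs : s ∈ S) : IsWord μ S 1 s
  | prod (w : Fin n → V) (l : Fin n → ℕ) (h : ∀ i, IsWord μ S (l i) (w i)) :
      IsWord μ S (∑ i, l i) (μ w)

/-- `L_i(S)`: the span of the words of length at most `i`. -/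
def L (μ : MultilinearMap K (fun _ : Fin n => V) V) (S : Set V) (i : ℕ) : Submodule K V :=
  Submodule.span K {w | ∃ l ≤ i, IsWord μ S l w}

/-- The union of the `L_i(S)` is the whole algebra. -/
def Generates (μ : MultilinearMap K (fun _ : Fin n => V) V) (S : Set V) : Prop :=
  ∀ x : V, ∃ i, x ∈ L μ S i

/-- The length of a generating set. -/
noncomputable def len (μ : MultilinearMap K (fun _ : Fin n => V) V) (S : Set V) : ℕ :=
  sInf {i | 1 ≤ i ∧ L μ S i = ⊤}

/-- The length of the algebra. -/
noncomputable def algLen (μ : MultilinearMap K (fun _ : Fin n => V) V) : ℕ∞ :=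
  ⨆ (S : Finset V) (_ : Generates μ (S : Set V)), (len μ (S : Set V) : ℕ∞)

end Defs

/-! ## The numbers -/

theorem genFib_le {n a m : ℕ} (h : m ≤ a) : genFib n a m = 1 := by
  rw [genFib, dif_pos h]

theorem genFib_gt {n a m : ℕ} (h : a < m) : genFib n a m =
    (n - a + 1) * genFib n a (m - 1) + ∑ i ∈ Finset.range (a - 1), genFib n a (m - 2 - i) := by
  rw [genFib, dif_neg (by omega)]

theorem genFib_mono (n a : ℕ) : Monotone (genFib n a) := by
  apply monotone_nat_of_le_succ
  intro m
  by_cases h : m + 1 ≤ a
  · rw [genFib_le h, genFib_le (by omega)]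
  · rw [genFib_gt (m := m + 1) (by omega)]
    have h1 : 1 * genFib n a (m + 1 - 1) ≤ (n - a + 1) * genFib n a (m + 1 - 1) :=
      Nat.mul_le_mul_right _ (by omega)
    rw [one_mul, Nat.add_sub_cancel] at h1
    exact h1.trans (Nat.le_add_right _ _)

/-- The sum over `a` different arguments is at most the sum over the `a` largest ones. -/
theorem sum_le (f : ℕ → ℕ) (hf : Monotone f) (a : ℕ) : ∀ (q : ℕ) (T : Finset ℕ),
    T ⊆ Finset.range (q + 1) → T.card = a →
    ∑ x ∈ T, f x ≤ ∑ s ∈ Finset.range a, f (q - s) := by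
  induction a with
  | zero =>
    intro q T _ hc
    rw [Finset.card_eq_zero] at hc
    simp [hc]
  | succ a ih =>
    intro q T hT hc
    have hne : T.Nonempty := by
      rw [← Finset.card_pos]; omega
    set M := T.max' hne with hM
    have hMT : M ∈ T := T.max'_mem hne
    have hMq : M ≤ q := by
      have := Finset.mem_range.1 (hT hMT)
      omega
    rw [← Finset.add_sum_erase T f hMT, Finset.sum_range_succ', add_comm]
    apply Nat.add_le_add
    · have h1 := ih (q - 1) (T.erase M) ?_ (by rw [Finset.card_erase_of_mem hMT, hc]; rfl)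
      · refine h1.trans (le_of_eq (Finset.sum_congr rfl fun s _ => ?_))
        congr 1
        omega
      · intro x hx
        rw [Finset.mem_erase] at hx
        have h2 : x ≤ M := T.le_max' x hx.2
        rw [Finset.mem_range]
        have h3 : x < M := lt_of_le_of_ne h2 hx.1
        omega
    · exact hf (by omega)

section Main

variable {K : Type u} [Field K] {V : Type v} [AddCommGroup V] [Module K V] {n : ℕ}
  {μ : MultilinearMap K (fun _ : Fin n => V) V} {A C : Finset (Fin n)}

theorem eq_zero_of_eq (hK : (2 : K) ≠ 0) (h : IsACCommutative μ A C) (x : Fin n → V)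
    {i j : Fin n} (hi : i ∈ A) (hj : j ∈ A) (hij : i ≠ j) (hx : x i = x j) : μ x = 0 := by
  have h1 := h.1 i hi j hj hij x
  have h2 : (fun l => x (Equiv.swap i j l)) = x := by
    funext l
    by_cases hl : l = i
    · rw [hl, Equiv.swap_apply_left, hx]
    · by_cases hl' : l = j
      · rw [hl', Equiv.swap_apply_right, hx]
      · rw [Equiv.swap_apply_of_ne_of_ne hl hl']
  rw [h2] at h1
  have h3 : (2 : K) • μ x = 0 := by
    rw [two_smul]
    nth_rewrite 1 [h1]
    exact neg_add_cancel _
  exact (smul_eq_zero.1 h3).resolve_left hK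

/-- The bound for the length of a product of basis words. -/
theorem length_bound (hA : A.card ≠ 1) {q : ℕ} (hn : 2 ≤ n)
    (r : Fin n → ℕ) (hr : ∀ i, r i < q) (hinj : ∀ i ∈ A, ∀ j ∈ A, r i = r j → i = j) :
    ∑ i, genFib n (max A.card 1) (r i + 1) ≤ genFib n (max A.card 1) (q + 1) := by
  classical
  set a := max A.card 1 with ha
  have hAn : A.card ≤ n := by
    have := Finset.card_le_univ A
    rwa [Fintype.card_fin] at this
  have hq1 : 1 ≤ q := by
    have := hr ⟨0, by omega⟩
    omega
  have himg : (A.image r).card = A.card := Finset.card_image_of_injOn hinj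
  have hsub : A.image r ⊆ Finset.range (q - 1 + 1) := by
    intro x hx
    obtain ⟨i, _, rfl⟩ := Finset.mem_image.1 hx
    have := hr i
    rw [Finset.mem_range]; omega
  have hAq : A.card ≤ q := by
    have := Finset.card_le_card hsub
    rw [himg, Finset.card_range] at this
    omega
  have haq : a ≤ q := by omega
  -- the sum over `A`
  have h1 : ∑ i ∈ A, genFib n a (r i + 1) ≤
      ∑ s ∈ Finset.range A.card, genFib n a (q - 1 - s + 1) := by
    rw [← Finset.sum_image (s := A) (g := r) (f := fun x => genFib n a (x + 1)) hinj]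
    exact sum_le (fun x => genFib n a (x + 1))
      (fun x y hxy => genFib_mono n a (by omega)) A.card (q - 1) _ hsub himg
  -- the sum over the complement
  have h2 : ∑ i ∈ Aᶜ, genFib n a (r i + 1) ≤ (n - A.card) * genFib n a q := by
    have h3 : ∑ i ∈ Aᶜ, genFib n a (r i + 1) ≤ ∑ _i ∈ Aᶜ, genFib n a q := by
      apply Finset.sum_le_sum
      intro i _
      exact genFib_mono n a (hr i)
    rw [Finset.sum_const, Finset.card_compl, Fintype.card_fin, smul_eq_mul] at h3
    exact h3
  rw [← Finset.sum_add_sum_compl A, genFib_gt (m := q + 1) (by omega), Nat.add_sub_cancel]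
  refine (Nat.add_le_add h1 h2).trans ?_
  by_cases h0 : A.card = 0
  · rw [h0]
    have e1 : a = 1 := by omega
    rw [e1]
    simp only [Finset.range_zero, Finset.sum_empty, zero_add, Nat.sub_self, add_zero, Nat.sub_zero]
    have e2 : n - 1 + 1 = n := by omega
    rw [e2]
  · have e1 : a = A.card := by omega
    rw [← e1]
    obtain ⟨b, hb⟩ : ∃ b, a = b + 1 := ⟨a - 1, by omega⟩
    rw [hb, Finset.sum_range_succ']
    simp only [Nat.add_sub_cancel, Nat.sub_zero]
    have e2 : q - 1 + 1 = q := by omega
    have e3 : ∀ s ∈ Finset.range b, genFib n (b + 1) (q - 1 - (s + 1) + 1) =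
        genFib n (b + 1) (q + 1 - 2 - s) := by
      intro s hs
      rw [Finset.mem_range] at hs
      congr 1
      omega
    rw [e2, Finset.sum_congr rfl e3]
    apply le_of_eq
    ring

/-- A word of length at most `F(q + 1)` outside of the span of `q` words. -/
theorem exists_word (hK : (2 : K) ≠ 0) (h : IsACCommutative μ A C) (hA : A.card ≠ 1) (hn : 2 ≤ n)
    {S : Set V} (hS : Generates μ S) {q : ℕ} (e : Fin q → V)
    (he : ∀ i : Fin q, ∃ l ≤ genFib n (max A.card 1) (i + 1), IsWord μ S l (e i))
    (hne : Submodule.span K (Set.range e) ≠ ⊤) :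
    ∃ w, (∃ l ≤ genFib n (max A.card 1) (q + 1), IsWord μ S l w) ∧
      w ∉ Submodule.span K (Set.range e) := by
  classical
  by_contra hcon
  push Not at hcon
  set E := Submodule.span K (Set.range e) with hE
  -- all words lie in `E`
  have hpos : 1 ≤ genFib n (max A.card 1) (q + 1) := by
    have := genFib_mono n (max A.card 1) (Nat.zero_le (q + 1))
    rwa [genFib_le (Nat.zero_le _)] at this
  have hall : ∀ (l : ℕ) (w : V), IsWord μ S l w → w ∈ E := by
    intro l w hw
    induction hw with
    | base s hs => exact hcon s ⟨1, hpos, IsWord.base s hs⟩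
    | prod w l _ ih =>
      -- expand the arguments
      have hc : ∀ i, ∃ c : Fin q → K, ∑ j, c j • e j = w i := by
        intro i
        exact (Submodule.mem_span_range_iff_exists_fun K).1 (ih i)
      choose c hc using hc
      have hw : w = fun i => ∑ j, c i j • e j := by
        funext i
        exact (hc i).symm
      rw [hw, MultilinearMap.map_sum]
      apply Submodule.sum_mem
      intro r _
      rw [MultilinearMap.map_smul_univ]
      apply Submodule.smul_mem
      -- the product of the basis elements
      by_cases hinj : ∀ i ∈ A, ∀ j ∈ A, r i = r j → i = j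
      · apply hcon
        choose l' hl' hl'w using he
        refine ⟨∑ i, l' (r i), ?_, IsWord.prod (fun i => e (r i)) (fun i => l' (r i))
          fun i => hl'w _⟩
        refine le_trans (Finset.sum_le_sum fun i _ => hl' (r i)) ?_
        exact length_bound hA hn (fun i => (r i : ℕ)) (fun i => (r i).2)
          fun i hi j hj hij => hinj i hi j hj (Fin.ext hij)
      · push Not at hinj
        obtain ⟨i, hi, j, hj, hij, hne'⟩ := hinj
        rw [eq_zero_of_eq hK h _ hi hj hne' (by rw [hij])]
        exact Submodule.zero_mem _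
  apply hne
  rw [eq_top_iff]
  intro x _
  obtain ⟨i, hi⟩ := hS x
  refine Submodule.span_le.2 ?_ hi
  rintro w ⟨l, _, hw⟩
  exact hall l w hw

theorem exists_basis (hK : (2 : K) ≠ 0) (h : IsACCommutative μ A C) (hA : A.card ≠ 1)
    (hn : 2 ≤ n) {S : Set V} (hS : Generates μ S) (q : ℕ) (hq : q ≤ Module.finrank K V) :
    ∃ e : Fin q → V, LinearIndependent K e ∧
      ∀ i : Fin q, ∃ l ≤ genFib n (max A.card 1) (i + 1), IsWord μ S l (e i) := by
  induction q with
  | zero => exact ⟨fun i => i.elim0, linearIndependent_empty_type, fun i => i.elim0⟩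
  | succ q ih =>
    obtain ⟨e, he, he'⟩ := ih (by omega)
    have hne : Submodule.span K (Set.range e) ≠ ⊤ := by
      intro htop
      have h1 := finrank_span_eq_card he
      rw [htop, finrank_top, Fintype.card_fin] at h1
      omega
    obtain ⟨w, hw, hwE⟩ := exists_word hK h hA hn hS e he' hne
    refine ⟨Fin.snoc e w, ?_, ?_⟩
    · rw [linearIndependent_finSnoc]
      exact ⟨he, hwE⟩
    · intro i
      refine Fin.lastCases ?_ (fun i => ?_) i
      · simpa using hw
      · simpa using he' i

end Main

/-- Let `K` be a field of characteristic different from two (for example the field of complex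
numbers), let `n ≥ 2`, and let `A, C` be disjoint subsets of `{1, …, n}` with `|A| ≠ 1`. The length
of a `k`-dimensional `(A, C)`-commutative `n`-ary algebra over `K`, `k ≥ 1`, is at most the
generalised Fibonacci number `F(k)`. -/
theorem result (K : Type u) [Field K] (hK : (2 : K) ≠ 0) (V : Type v) [AddCommGroup V]
    [Module K V] (n : ℕ) (hn : 2 ≤ n) (A C : Finset (Fin n)) (_hAC : Disjoint A C)
    (hA : A.card ≠ 1) (μ : MultilinearMap K (fun _ : Fin n => V) V) (h : IsACCommutative μ A C)
    (k : ℕ) (hk : 1 ≤ k) (hV : Module.finrank K V = k) :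
    algLen μ ≤ (genFib n (max A.card 1) k : ℕ∞) := by
  refine iSup_le fun S => iSup_le fun hS => ?_
  rw [Nat.cast_le]
  apply Nat.sInf_le
  have hfin : Module.Finite K V := Module.finite_of_finrank_pos (by omega)
  have hmono := genFib_mono n (max A.card 1)
  refine ⟨?_, ?_⟩
  · have := hmono (Nat.zero_le k)
    rwa [genFib_le (Nat.zero_le _)] at this
  · obtain ⟨e, he, he'⟩ := exists_basis hK h hA hn hS k hV.ge
    have h1 : Submodule.span K (Set.range e) = ⊤ :=
      he.span_eq_top_of_card_eq_finrank' (by rw [Fintype.card_fin, hV])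
    rw [eq_top_iff, ← h1]
    apply Submodule.span_mono
    rintro _ ⟨i, rfl⟩
    obtain ⟨l, hl, hw⟩ := he' i
    exact ⟨l, hl.trans (hmono (by omega)), hw⟩

end Pool.Agent.Results.MP_dca5dd_al.LengthBound
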